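import Pool.Agent.Helper53.TX.Far
import Pool.Agent.Helper54.LG.Count
import Pool.Agent.Helper87.UG.LossPt
import Pool.Agent.Helper24.UG.Win

/-!
# NR: the smooth count of the zeros at the scale `M`, its mean, and the tail of the kernel
-/

set_option autoImplicit false
open MeasureTheory Set Filter Topology
open Pool.Agent.Helper57.Zeta Pool.Agent.Helper57.LH Pool.Agent.Helper57.ED Pool.Agent.Helper54.LG
open Pool.Agent.Helper69.UG (XX near far)
open Pool.Agent.Helper93.UG (zc sp)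
open Pool.Agent.Helper56.UG (tsum_bound56)
open Pool.Agent.Helper53.TX (PW_pos53 PW_cont53)
open Pool.Agent.Helper87.UG (summable_w near_summable)

namespace Pool.Agent.Helper60.NR

/-- Smooth count of the ordinates at the scale `M`. -/
noncomputable def KK (T M t : ℝ) : ℝ := ∑' ρ : ZS, mx ρ * (1 / (1 + zb (XX T M) t ρ ^ 2))

theorem XX_pos {T M : ℝ} (hT : 1 < T) (hM : 0 < M) : 0 < XX T M := by
  unfold XX
  exact div_pos (Real.log_pos hT) hM

theorem KK_summable {T M : ℝ} (hT : 1 < T) (hM : 0 < M) (t : ℝ) :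
    Summable fun ρ : ZS => mx ρ * (1 / (1 + zb (XX T M) t ρ ^ 2)) := by
  refine summable_w (B := 1) (XX_pos hT hM) t fun ρ => ?_
  rw [abs_of_nonneg (by positivity)]

theorem KK_nonneg (T M t : ℝ) : 0 ≤ KK T M t := by
  unfold KK
  refine tsum_nonneg fun ρ => ?_
  have h2 := mx_nonneg (ρ : ℂ)
  positivity

/-- A weight below the kernel. -/
theorem tsum_le_KK {T M t A : ℝ} (hT : 1 < T) (hM : 0 < M) {w : ZS → ℝ} (hw0 : ∀ ρ, 0 ≤ w ρ)
    (hw : ∀ ρ, w ρ ≤ A * (1 / (1 + zb (XX T M) t ρ ^ 2))) :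
    Summable (fun ρ : ZS => mx ρ * w ρ) ∧ ∑' ρ : ZS, mx ρ * w ρ ≤ A * KK T M t := by
  have hs : Summable (fun ρ : ZS => mx ρ * w ρ) := by
    refine summable_w (B := A) (XX_pos hT hM) t fun ρ => ?_
    rw [abs_of_nonneg (hw0 ρ)]
    have := hw ρ
    rwa [mul_one_div] at this
  refine ⟨hs, ?_⟩
  unfold KK
  rw [← tsum_mul_left]
  refine hs.tsum_le_tsum (fun ρ => ?_) ((KK_summable hT hM t).mul_left A)
  calc mx ρ * w ρ ≤ mx ρ * (A * (1 / (1 + zb (XX T M) t ρ ^ 2))) := mul_le_mul_of_nonneg_left (hw ρ) (mx_nonneg _)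
    _ = _ := by ring

theorem near_le {T M : ℝ} (hT : 3 ≤ T) (hM : 0 < M) (Y t : ℝ) : near T M Y t ≤ KK T M t := by
  classical
  have h := tsum_le_KK (A := 1) (t := t) (by linarith : 1 < T) hM
    (w := fun ρ : ZS => if Real.log T * |(ρ : ℂ).re - 1 / 2| < Y then 1 / (1 + zb (XX T M) t ρ ^ 2) else 0)
    (fun ρ => by split_ifs <;> positivity) (fun ρ => by
      rw [one_mul]
      split_ifs
      · exact le_rfl
      · positivity)
  unfold near
  calc _ ≤ 1 * KK T M t := h.2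
    _ = _ := one_mul _

/-- One zero. -/
private lemma one_zero60 {T M τ : ℝ} (hT : 100 ≤ T) (hM : 0 < M) (hML : M ≤ 100 * Real.log T) (ρ : ZS) :
    Integrable (fun t => PW T (t - τ) * (mx ρ * (1 / (1 + zb (XX T M) t ρ ^ 2)))) ∧
    ∫ t, PW T (t - τ) * (mx ρ * (1 / (1 + zb (XX T M) t ρ ^ 2))) ≤
      M * (mx ρ * (2 * Real.pi / Real.log T * PW T ((ρ : ℂ).im - τ))) := by
  have hT0 : 0 < T := by linarith
  have hL : 0 < Real.log T := Real.log_pos (by linarith)
  have hX0 : 0 < XX T M := XX_pos (by linarith) hM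
  have hX1 : 1 / 100 ≤ XX T M := by
    unfold XX
    rw [div_le_div_iff₀ (by norm_num) hM]
    linarith
  have hpi := Real.pi_pos
  have hc := conv_le hT0 hX0 τ (ρ : ℂ).im
  have e1 : ∀ t, PW T (t - τ) * (mx ρ * (1 / (1 + zb (XX T M) t ρ ^ 2))) =
      mx ρ * (PW T (t - τ) * (1 / (1 + (XX T M * (t - (ρ : ℂ).im)) ^ 2))) := by
    intro t
    unfold zb
    ring
  simp only [e1]
  refine ⟨hc.1.const_mul _, ?_⟩
  rw [integral_const_mul]
  have hm := mx_nonneg (ρ : ℂ)
  have hp := PW_pos53 hT0 ((ρ : ℂ).im - τ)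
  have h3 : 1 / (T * XX T M) ≤ 1 := by
    rw [div_le_one (by positivity)]
    nlinarith
  have h4 : ∫ t, PW T (t - τ) * (1 / (1 + (XX T M * (t - (ρ : ℂ).im)) ^ 2)) ≤
      M * (2 * Real.pi / Real.log T * PW T ((ρ : ℂ).im - τ)) := by
    refine hc.2.trans ?_
    calc Real.pi / XX T M * (1 + 1 / (T * XX T M)) * PW T ((ρ : ℂ).im - τ)
        ≤ Real.pi / XX T M * (1 + 1) * PW T ((ρ : ℂ).im - τ) := by gcongr
      _ = _ := by
          unfold XX
          field_simp
          ring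
  calc mx ρ * ∫ t, PW T (t - τ) * (1 / (1 + (XX T M * (t - (ρ : ℂ).im)) ^ 2))
      ≤ mx ρ * (M * (2 * Real.pi / Real.log T * PW T ((ρ : ℂ).im - τ))) := mul_le_mul_of_nonneg_left h4 hm
    _ = _ := by ring

/-- The mean of the smooth count. -/
theorem KK_mean : ∃ C T₀ : ℝ, 0 < C ∧ 100 ≤ T₀ ∧ ∀ T M : ℝ, T₀ ≤ T → 0 < M → M ≤ 100 * Real.log T →
    IntegrableOn (KK T M) (Icc (-(4 * T)) (4 * T)) ∧ ∫ t in Icc (-(4 * T)) (4 * T), KK T M t ≤ C * M * T := by
  have hpi := Real.pi_pos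
  obtain ⟨C, hC, hev⟩ := count_mean (K := 1) one_pos.le
  obtain ⟨T1, hT1⟩ := eventually_atTop.1 hev
  refine ⟨17 * Real.pi * C, max 100 T1, by positivity, le_max_left _ _, ?_⟩
  intro T M hT hM hML
  have hT100 : 100 ≤ T := (le_max_left _ _).trans hT
  have hT' : T1 ≤ T := (le_max_right _ _).trans hT
  have hTp : 0 < T := by linarith
  have hcount := hT1 T hT' 0 (by rw [abs_zero]; positivity)
  set F : ZS → ℝ → ℝ := fun ρ t => PW T (t - 0) * (mx ρ * (1 / (1 + zb (XX T M) t ρ ^ 2))) with hF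
  have hF0 : ∀ ρ t, 0 ≤ F ρ t := by
    intro ρ t
    have h1 := PW_pos53 hTp (t - 0)
    have h2 := mx_nonneg (ρ : ℂ)
    simp only [hF]
    positivity
  have hFm : ∀ ρ, Measurable (F ρ) := by
    intro ρ
    simp only [hF]
    refine (PW_cont53 hTp 0).measurable.mul (Measurable.const_mul ?_ _)
    unfold zb
    refine Continuous.measurable (Continuous.div continuous_const (by fun_prop) fun t => ?_)
    positivity
  have hFi : ∀ ρ, Integrable (F ρ) := fun ρ => (one_zero60 hT100 hM hML ρ).1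
  have hB : ∀ Z : Finset ZS, ∑ ρ ∈ Z, ∫ t, F ρ t ≤ M * C := by
    intro Z
    calc ∑ ρ ∈ Z, ∫ t, F ρ t ≤ ∑ ρ ∈ Z, M * (mx ρ * (2 * Real.pi / Real.log T * PW T ((ρ : ℂ).im - 0))) :=
          Finset.sum_le_sum fun ρ _ => (one_zero60 hT100 hM hML ρ).2
      _ = M * ∑ ρ ∈ Z, mx ρ * (2 * Real.pi / Real.log T * PW T ((ρ : ℂ).im - 0)) := by rw [Finset.mul_sum]
      _ ≤ M * C := mul_le_mul_of_nonneg_left (hcount Z) hM.le
  obtain ⟨r1, r2⟩ := tsum_bound56 hF0 hFm hFi hB
  have hKK : (fun t => ∑' ρ, F ρ t) = fun t => PW T (t - 0) * KK T M t := by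
    funext t
    unfold KK
    rw [← tsum_mul_left]
  rw [hKK] at r1
  have r3 : ∫ t, PW T (t - 0) * KK T M t ≤ M * C := by
    rw [hKK] at r2
    exact r2
  have hlow : ∀ t ∈ Icc (-(4 * T)) (4 * T), 1 ≤ (17 * Real.pi * T) * PW T (t - 0) := by
    intro t ht
    rw [sub_zero]
    unfold PW
    rw [mul_div_assoc', le_div_iff₀ (by positivity)]
    have h5 : t ^ 2 ≤ (4 * T) ^ 2 := by
      rw [← sq_abs t]
      exact pow_le_pow_left₀ (abs_nonneg _) (abs_le.2 ht) 2
    have h6 : Real.pi * (T ^ 2 + t ^ 2) ≤ Real.pi * (T ^ 2 + (4 * T) ^ 2) := by gcongr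
    nlinarith
  have hmeas : AEStronglyMeasurable (KK T M) volume := by
    have e : KK T M = fun t => (PW T (t - 0))⁻¹ * (PW T (t - 0) * KK T M t) := by
      funext t
      have := (PW_pos53 hTp (t - 0)).ne'
      field_simp
    rw [e]
    exact ((PW_cont53 hTp 0).inv₀ fun t => (PW_pos53 hTp (t - 0)).ne').aestronglyMeasurable.mul r1.aestronglyMeasurable
  have h5 : Integrable (fun t => (17 * Real.pi * T) * (PW T (t - 0) * KK T M t)) := r1.const_mul _
  have hle : ∀ t ∈ Icc (-(4 * T)) (4 * T), KK T M t ≤ (17 * Real.pi * T) * (PW T (t - 0) * KK T M t) := by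
    intro t ht
    have := hlow t ht
    have h6 := KK_nonneg T M t
    nlinarith
  have hI : IntegrableOn (KK T M) (Icc (-(4 * T)) (4 * T)) := by
    refine Integrable.mono' h5.integrableOn hmeas.restrict ?_
    refine (ae_restrict_iff' measurableSet_Icc).2 (ae_of_all _ fun t ht => ?_)
    rw [Real.norm_of_nonneg (KK_nonneg _ _ _)]
    exact hle t ht
  refine ⟨hI, ?_⟩
  calc ∫ t in Icc (-(4 * T)) (4 * T), KK T M t
      ≤ ∫ t in Icc (-(4 * T)) (4 * T), (17 * Real.pi * T) * (PW T (t - 0) * KK T M t) :=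
        setIntegral_mono_on hI h5.integrableOn measurableSet_Icc hle
    _ ≤ ∫ t, (17 * Real.pi * T) * (PW T (t - 0) * KK T M t) := by
        refine setIntegral_le_integral h5 (ae_of_all _ fun t => ?_)
        have h7 := PW_pos53 hTp (t - 0)
        have h6 := KK_nonneg T M t
        show 0 ≤ _
        positivity
    _ = (17 * Real.pi * T) * ∫ t, PW T (t - 0) * KK T M t := integral_const_mul _ _
    _ ≤ (17 * Real.pi * T) * (M * C) := by gcongr
    _ = _ := by ring

/-- The smooth count at two close points. -/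
theorem KK_cmp {T M t t' : ℝ} (hT : 1 < T) (hM : 1 ≤ M) (h : |t - t'| ≤ sp T) : KK T M t' ≤ 82 * KK T M t := by
  have hM0 : 0 < M := by linarith
  have hL : 0 < Real.log T := Real.log_pos hT
  have hpi := Real.pi_pos
  have hpi2 : Real.pi < 3.1416 := Real.pi_lt_d4
  have h1 := tsum_le_KK (A := 82) (t := t) hT hM0 (w := fun ρ : ZS => 1 / (1 + zb (XX T M) t' ρ ^ 2))
    (fun ρ => by positivity) (fun ρ => by
      obtain ⟨b, hb⟩ : ∃ b : ℝ, b = zb (XX T M) t ρ := ⟨_, rfl⟩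
      obtain ⟨b', hb'⟩ : ∃ b' : ℝ, b' = zb (XX T M) t' ρ := ⟨_, rfl⟩
      rw [← hb, ← hb', mul_one_div, div_le_div_iff₀ (by positivity) (by positivity)]
      have h2 : |b - b'| ≤ 2 * Real.pi := by
        have h3 : b - b' = XX T M * (t - t') := by
          rw [hb, hb']
          unfold zb
          ring
        rw [h3, abs_mul, abs_of_pos (XX_pos hT hM0)]
        calc XX T M * |t - t'| ≤ XX T M * sp T := mul_le_mul_of_nonneg_left h (XX_pos hT hM0).le
          _ = 2 * Real.pi / M := by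
              unfold XX sp
              field_simp
          _ ≤ 2 * Real.pi := div_le_self (by positivity) hM
      have h4 : (b - b') ^ 2 ≤ (2 * Real.pi) ^ 2 := by
        rw [← sq_abs]
        exact pow_le_pow_left₀ (abs_nonneg _) h2 2
      have h5 : (2 * Real.pi) ^ 2 ≤ 39.5 := by nlinarith
      nlinarith [sq_nonneg (b - 2 * b'), sq_nonneg b', sq_nonneg b])
  unfold KK at h1 ⊢
  exact h1.2

open Classical in
/-- The tail of the kernel. -/
theorem tail_pt {T M L t : ℝ} (hT : 1 < T) (hM : 0 < M) (hL : 0 < L) :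
    Summable (fun ρ : ZS => mx ρ * (if L * sp T < |t - (ρ : ℂ).im| then qk 0 (zb (XX T M) t ρ) else 0)) ∧
    ∑' ρ : ZS, mx ρ * (if L * sp T < |t - (ρ : ℂ).im| then qk 0 (zb (XX T M) t ρ) else 0) ≤
      2 * (M / L) ^ 2 * KK T (2 * Real.pi * L) t := by
  have hpi := Real.pi_pos
  have hpi3 : 3.14 < Real.pi := Real.pi_gt_d2
  have hlog : 0 < Real.log T := Real.log_pos hT
  refine tsum_le_KK hT (by positivity) (fun ρ => ?_) (fun ρ => ?_)
  · split_ifs
    · exact qk_zero_nonneg _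
    · exact le_rfl
  · split_ifs with h
    swap
    · positivity
    obtain ⟨x, hx⟩ : ∃ x : ℝ, x = (t - (ρ : ℂ).im) / sp T := ⟨_, rfl⟩
    have hsp : 0 < sp T := by unfold sp; positivity
    have hxL : L < |x| := by
      rw [hx, abs_div, abs_of_pos hsp, lt_div_iff₀ hsp]
      exact h
    have hx2 : L ^ 2 < x ^ 2 := by
      rw [← sq_abs x]
      exact pow_lt_pow_left₀ hxL hL.le (by norm_num)
    have hx0 : 0 < x ^ 2 := lt_trans (by positivity) hx2
    have e1 : zb (XX T M) t ρ = 2 * Real.pi * x / M := by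
      rw [hx]
      unfold zb XX sp
      field_simp
    have e2 : zb (XX T (2 * Real.pi * L)) t ρ = x / L := by
      rw [hx]
      unfold zb XX sp
      field_simp
    rw [e1, e2]
    have h1 : qk 0 (2 * Real.pi * x / M) ≤ 21 / (1 + (2 * Real.pi * x / M) ^ 2) := by
      have h2 := (le_abs_self _).trans (qk_bound 0 (2 * Real.pi * x / M))
      rw [Real.cosh_zero, mul_one] at h2
      exact h2
    refine h1.trans ?_
    have h3 : (21 : ℝ) / (1 + (2 * Real.pi * x / M) ^ 2) ≤ (M ^ 2 * 21) / (4 * Real.pi ^ 2 * x ^ 2) := by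
      rw [div_le_div_iff₀ (by positivity) (by positivity)]
      have e3 : M ^ 2 * 21 * (1 + (2 * Real.pi * x / M) ^ 2) = 21 * M ^ 2 + 21 * (4 * Real.pi ^ 2 * x ^ 2) := by
        field_simp
        ring
      rw [e3]
      nlinarith [sq_nonneg M]
    refine h3.trans ?_
    rw [mul_one_div, div_le_div_iff₀ (by positivity) (by positivity)]
    have e4 : (2 : ℝ) * (M / L) ^ 2 * (4 * Real.pi ^ 2 * x ^ 2) = (8 * Real.pi ^ 2) * (M ^ 2 * (x ^ 2 / L ^ 2)) := by
      field_simp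
      ring
    have e5 : M ^ 2 * 21 * (1 + (x / L) ^ 2) = 21 * (M ^ 2 * (1 + x ^ 2 / L ^ 2)) := by
      rw [div_pow]
      ring
    rw [e4, e5]
    have h6 : 1 ≤ x ^ 2 / L ^ 2 := by
      rw [one_le_div (by positivity)]
      exact hx2.le
    have h7 : M ^ 2 * (1 + x ^ 2 / L ^ 2) ≤ 2 * (M ^ 2 * (x ^ 2 / L ^ 2)) := by nlinarith [sq_nonneg M]
    have h8 : 0 ≤ M ^ 2 * (x ^ 2 / L ^ 2) := by positivity
    have h9 : 9 ≤ Real.pi ^ 2 := by nlinarith
    have h10 := mul_le_mul_of_nonneg_right h9 h8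
    linarith

/-- The number of zeros near `t`. -/
theorem zc_le_KK {T K t : ℝ} (hT : 1 < T) (hK : 0 < K) : (zc (Icc (t - K * sp T) (t + K * sp T)) : ℝ) ≤ 2 * KK T (2 * Real.pi * K) t := by
  have hpi := Real.pi_pos
  have hlog : 0 < Real.log T := Real.log_pos hT
  have hsp : 0 < sp T := by unfold sp; positivity
  obtain ⟨F, hF, h1⟩ := Pool.Agent.Helper24.UG.zc_fin (I := Icc (t - K * sp T) (t + K * sp T)) (Subset.refl _)
  rw [h1]
  unfold KK
  rw [← tsum_mul_left]
  refine le_trans (Finset.sum_le_sum fun ρ hρ => ?_)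
    (((KK_summable hT (by positivity : 0 < 2 * Real.pi * K) t).mul_left 2).sum_le_tsum F fun ρ _ => by
      have := mx_nonneg (ρ : ℂ)
      positivity)
  have h2 := (hF ρ).1 hρ
  have h3 : |(t - (ρ : ℂ).im) / sp T / K| ≤ 1 := by
    rw [abs_div, abs_div, abs_of_pos hsp, abs_of_pos hK, div_div, div_le_one (by positivity)]
    rw [abs_le]
    constructor
    · linarith [h2.2]
    · linarith [h2.1]
  have e2 : zb (XX T (2 * Real.pi * K)) t ρ = (t - (ρ : ℂ).im) / sp T / K := by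
    unfold zb XX sp
    field_simp
  rw [e2]
  have h4 : ((t - (ρ : ℂ).im) / sp T / K) ^ 2 ≤ 1 := by
    rw [← sq_abs]
    exact pow_le_one₀ (abs_nonneg _) h3
  have hm := mx_nonneg (ρ : ℂ)
  have h5 : 1 / 2 ≤ 1 / (1 + ((t - (ρ : ℂ).im) / sp T / K) ^ 2) := by
    rw [div_le_div_iff₀ (by norm_num) (by positivity)]
    linarith
  nlinarith

end Pool.Agent.Helper60.NR
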