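import Pool.Agent.Helper24.NR.Defs
import Pool.Agent.Helper60.NR.KK

/-!
# NR: the tail of the linear statistic
-/

set_option autoImplicit false
open MeasureTheory Set Filter Topology
open Pool.Agent.Helper57.Zeta Pool.Agent.Helper57.LH Pool.Agent.Helper57.ED
open Pool.Agent.Helper54.LG (za zb qk SS MM)
open Pool.Agent.Helper93.UG (zc sp)
open Pool.Agent.Helper69.UG (XX NX)
open Pool.Agent.Helper24.NR

namespace Pool.Agent.Helper60.NR

/-- The majorant of the tail, pointwise. -/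
theorem outm_pt {T L : ℝ} (hT : 1 < T) (hL : 0 < L) (t : ℝ) :
    Summable (fun ρ : ZS => mx ρ * (if |(ρ : ℂ).im - t| ≤ L / 2 * sp T then 0 else (L ^ (1 / 3 : ℝ) * sp T / ((ρ : ℂ).im - t)) ^ 2)) ∧
    OutM T L t ≤ 8 * L ^ (-(4 / 3) : ℝ) * KK T (Real.pi * L) t := by
  classical
  have hpi := Real.pi_pos
  have hlog : 0 < Real.log T := Real.log_pos hT
  have hsp : 0 < sp T := by unfold sp; positivity
  unfold OutM
  refine tsum_le_KK hT (by positivity) (fun ρ => ?_) (fun ρ => ?_)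
  · split_ifs <;> positivity
  · split_ifs with h
    · positivity
    · rw [not_le] at h
      obtain ⟨x, hx⟩ : ∃ x : ℝ, x = ((ρ : ℂ).im - t) / sp T := ⟨_, rfl⟩
      have hxL : L / 2 < |x| := by
        rw [hx, abs_div, abs_of_pos hsp, lt_div_iff₀ hsp]
        exact h
      have hx2 : (L / 2) ^ 2 < x ^ 2 := by
        rw [← sq_abs x]
        exact pow_lt_pow_left₀ hxL (by positivity) (by norm_num)
      have hx0 : 0 < x ^ 2 := lt_trans (by positivity) hx2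
      have hxne : x ≠ 0 := by
        intro h0
        rw [h0] at hx0
        norm_num at hx0
      have e1 : L ^ (1 / 3 : ℝ) * sp T / ((ρ : ℂ).im - t) = L ^ (1 / 3 : ℝ) / x := by
        rw [hx]
        rw [div_div_eq_mul_div]
      have e2 : zb (XX T (Real.pi * L)) t ρ ^ 2 = 4 * x ^ 2 / L ^ 2 := by
        have h3 : zb (XX T (Real.pi * L)) t ρ = -(2 * x / L) := by
          rw [hx]
          unfold zb XX sp
          field_simp
          ring
        rw [h3]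
        ring
      have e3 : (L ^ (1 / 3 : ℝ)) ^ 2 = L ^ (-(4 / 3) : ℝ) * L ^ 2 := by
        rw [← Real.rpow_natCast (L ^ (1 / 3 : ℝ)) 2, ← Real.rpow_mul hL.le, ← Real.rpow_natCast L 2, ← Real.rpow_add hL]
        norm_num
      rw [e1, e2, div_pow, e3]
      have h4 : 1 / (1 + 4 * x ^ 2 / L ^ 2) = L ^ 2 / (L ^ 2 + 4 * x ^ 2) := by
        field_simp
      rw [h4]
      have h5 : 0 < L ^ (-(4 / 3) : ℝ) := Real.rpow_pos_of_pos hL _
      have h6 : L ^ 2 / x ^ 2 ≤ 8 * (L ^ 2 / (L ^ 2 + 4 * x ^ 2)) := by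
        rw [← mul_div_assoc, div_le_div_iff₀ hx0 (by positivity)]
        have h7 : L ^ 2 ≤ 4 * x ^ 2 := by nlinarith
        nlinarith [mul_le_mul_of_nonneg_left h7 (sq_nonneg L)]
      calc L ^ (-(4 / 3) : ℝ) * L ^ 2 / x ^ 2 = L ^ (-(4 / 3) : ℝ) * (L ^ 2 / x ^ 2) := by ring
        _ ≤ L ^ (-(4 / 3) : ℝ) * (8 * (L ^ 2 / (L ^ 2 + 4 * x ^ 2))) := mul_le_mul_of_nonneg_left h6 h5.le
        _ = _ := by ring

/-- F -/
theorem outm_tail : ∃ C T₀ : ℝ, 1 ≤ C ∧ ∀ T L : ℝ, T₀ ≤ T → C ≤ L → L ≤ Real.log T →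
    volume {t : ℝ | t ∈ Icc (T / 2) (3 * T) ∧ L ^ (-(1 / 6) : ℝ) < OutM T L t} ≤
      ENNReal.ofReal (C * L ^ (-(1 / 6) : ℝ) * T) := by
  obtain ⟨C, T₀, hC, hT₀, hKK⟩ := KK_mean
  have hpi := Real.pi_pos
  refine ⟨max 1 (8 * Real.pi * C), T₀, le_max_left _ _, fun T L hT hL hLT => ?_⟩
  have hT100 : 100 ≤ T := hT₀.trans hT
  have hT0 : 0 < T := by linarith
  have hL1 : 1 ≤ L := (le_max_left _ _).trans hL
  have hL0 : 0 < L := by linarith
  have hlog : 0 < Real.log T := by linarith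
  obtain ⟨hint, hmean⟩ := hKK T (Real.pi * L) hT (by positivity) (by nlinarith [Real.pi_lt_d2])
  set θ : ℝ := L ^ (7 / 6 : ℝ) / 8 with hθ
  have hθ0 : 0 < θ := by positivity
  have hsub : {t : ℝ | t ∈ Icc (T / 2) (3 * T) ∧ L ^ (-(1 / 6) : ℝ) < OutM T L t} ⊆
      {t : ℝ | θ ≤ KK T (Real.pi * L) t} ∩ Icc (-(4 * T)) (4 * T) := by
    intro t ht
    obtain ⟨h1, h2⟩ := ht
    refine ⟨?_, by linarith [h1.1], by linarith [h1.2]⟩
    have h3 := (outm_pt (by linarith : 1 < T) hL0 t).2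
    have h4 : L ^ (-(1 / 6) : ℝ) < 8 * L ^ (-(4 / 3) : ℝ) * KK T (Real.pi * L) t := lt_of_lt_of_le h2 h3
    have h5 : L ^ (4 / 3 : ℝ) * L ^ (-(1 / 6) : ℝ) = L ^ (7 / 6 : ℝ) := by
      rw [← Real.rpow_add hL0]
      norm_num
    have h6 : L ^ (4 / 3 : ℝ) * L ^ (-(4 / 3) : ℝ) = 1 := by
      rw [← Real.rpow_add hL0]
      norm_num
    have h7 := mul_le_mul_of_nonneg_left h4.le (Real.rpow_pos_of_pos hL0 (4 / 3 : ℝ)).le
    have h8 : L ^ (4 / 3 : ℝ) * (8 * L ^ (-(4 / 3) : ℝ) * KK T (Real.pi * L) t) =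
        8 * (L ^ (4 / 3 : ℝ) * L ^ (-(4 / 3) : ℝ)) * KK T (Real.pi * L) t := by ring
    rw [h5, h8, h6] at h7
    show θ ≤ KK T (Real.pi * L) t
    rw [hθ]
    linarith
  have hmark := mul_meas_ge_le_integral_of_nonneg (μ := volume.restrict (Icc (-(4 * T)) (4 * T)))
    (f := KK T (Real.pi * L)) (Eventually.of_forall fun t => KK_nonneg T (Real.pi * L) t) hint θ
  have hfin : volume ({t : ℝ | θ ≤ KK T (Real.pi * L) t} ∩ Icc (-(4 * T)) (4 * T)) ≠ ⊤ := by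
    refine ne_top_of_le_ne_top ?_ (measure_mono inter_subset_right)
    rw [Real.volume_Icc]
    exact ENNReal.ofReal_ne_top
  have h9 : (volume.restrict (Icc (-(4 * T)) (4 * T))).real {t : ℝ | θ ≤ KK T (Real.pi * L) t} =
      (volume ({t : ℝ | θ ≤ KK T (Real.pi * L) t} ∩ Icc (-(4 * T)) (4 * T))).toReal := by
    rw [measureReal_def, Measure.restrict_apply' measurableSet_Icc]
  rw [h9] at hmark
  refine (measure_mono hsub).trans ?_
  rw [← ENNReal.ofReal_toReal hfin]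
  apply ENNReal.ofReal_le_ofReal
  have h10 : θ * (volume ({t : ℝ | θ ≤ KK T (Real.pi * L) t} ∩ Icc (-(4 * T)) (4 * T))).toReal ≤ C * (Real.pi * L) * T :=
    hmark.trans hmean
  have h11 : (volume ({t : ℝ | θ ≤ KK T (Real.pi * L) t} ∩ Icc (-(4 * T)) (4 * T))).toReal ≤ C * (Real.pi * L) * T / θ := by
    rw [le_div_iff₀ hθ0]
    linarith
  refine h11.trans ?_
  have h12 : L / L ^ (7 / 6 : ℝ) = L ^ (-(1 / 6) : ℝ) := by
    rw [div_eq_mul_inv, ← Real.rpow_neg hL0.le]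
    nth_rewrite 1 [← Real.rpow_one L]
    rw [← Real.rpow_add hL0]
    norm_num
  have h13 : C * (Real.pi * L) * T / θ = (8 * Real.pi * C) * (L / L ^ (7 / 6 : ℝ)) * T := by
    rw [hθ]
    field_simp
  rw [h13, h12]
  have h14 : 0 < L ^ (-(1 / 6) : ℝ) := Real.rpow_pos_of_pos hL0 _
  have h15 : 8 * Real.pi * C ≤ max 1 (8 * Real.pi * C) := le_max_right _ _
  gcongr

/-- F1, from F0 -/
theorem out_le_of (phi_far : ∃ C : ℝ, 1 ≤ C ∧ ∀ L x : ℝ, C ≤ L → x ≠ 0 → 0 ≤ phi L x ∧ phi L x ≤ C * (L ^ (1 / 3 : ℝ) / x) ^ 2) :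
    ∃ C : ℝ, 1 ≤ C ∧ ∀ T L t u : ℝ, 3 ≤ T → C ≤ L → |t - u| ≤ sp T → Out T L u ≤ C * OutM T L t := by
  classical
  obtain ⟨C0, hC0, hphi⟩ := phi_far
  refine ⟨4 * C0, by linarith, fun T L t u hT hL htu => ?_⟩
  have hL4 : 4 ≤ L := by linarith
  have hL0 : 0 < L := by linarith
  have hT1 : 1 < T := by linarith
  have hpi := Real.pi_pos
  have hlog : 0 < Real.log T := Real.log_pos hT1
  have hsp : 0 < sp T := by unfold sp; positivity
  have htu' := abs_le.1 htu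
  have hS := (outm_pt hT1 hL0 t).1
  have hterm : ∀ ρ : ZS, 0 ≤ mx (ρ : ℂ) * (if |(ρ : ℂ).im - u| ≤ L * sp T then 0 else phi L (((ρ : ℂ).im - u) / sp T)) ∧
      mx (ρ : ℂ) * (if |(ρ : ℂ).im - u| ≤ L * sp T then 0 else phi L (((ρ : ℂ).im - u) / sp T)) ≤
      4 * C0 * (mx (ρ : ℂ) * (if |(ρ : ℂ).im - t| ≤ L / 2 * sp T then 0 else (L ^ (1 / 3 : ℝ) * sp T / ((ρ : ℂ).im - t)) ^ 2)) := by
    intro ρ
    have hm := mx_nonneg (ρ : ℂ)
    by_cases h : |(ρ : ℂ).im - u| ≤ L * sp T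
    · rw [if_pos h, mul_zero]
      refine ⟨le_rfl, ?_⟩
      split_ifs <;> positivity
    · rw [if_neg h]
      rw [not_le] at h
      have hne : ((ρ : ℂ).im - u) / sp T ≠ 0 := by
        intro h0
        have h1 : (ρ : ℂ).im - u = 0 := by
          rcases div_eq_zero_iff.1 h0 with h2 | h2
          · exact h2
          · exact absurd h2 hsp.ne'
        rw [h1, abs_zero] at h
        nlinarith
      obtain ⟨h1, h2⟩ := hphi L (((ρ : ℂ).im - u) / sp T) (by linarith) hne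
      refine ⟨mul_nonneg hm h1, ?_⟩
      have h3 : |(ρ : ℂ).im - u| ≤ |(ρ : ℂ).im - t| + sp T := by
        have : (ρ : ℂ).im - u = ((ρ : ℂ).im - t) + (t - u) := by ring
        rw [this]
        exact (abs_add_le _ _).trans (by linarith)
      have h4 : |(ρ : ℂ).im - t| ≤ |(ρ : ℂ).im - u| + sp T := by
        have : (ρ : ℂ).im - t = ((ρ : ℂ).im - u) - (t - u) := by ring
        rw [this]
        exact (abs_sub _ _).trans (by linarith)
      have h5 : L / 2 * sp T < |(ρ : ℂ).im - t| := by nlinarith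
      rw [if_neg (not_le.2 h5)]
      have h6 : |(ρ : ℂ).im - t| ≤ 2 * |(ρ : ℂ).im - u| := by nlinarith
      have h7 : 0 < |(ρ : ℂ).im - t| := lt_trans (by positivity) h5
      have h8 : 0 < |(ρ : ℂ).im - u| := lt_trans (by positivity) h
      have h9 : (L ^ (1 / 3 : ℝ) / (((ρ : ℂ).im - u) / sp T)) ^ 2 ≤ 4 * (L ^ (1 / 3 : ℝ) * sp T / ((ρ : ℂ).im - t)) ^ 2 := by
        rw [div_div_eq_mul_div, div_pow, div_pow, ← sq_abs ((ρ : ℂ).im - u), ← sq_abs ((ρ : ℂ).im - t), ← mul_div_assoc,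
          div_le_div_iff₀ (by positivity) (by positivity)]
        have h10 : |(ρ : ℂ).im - t| ^ 2 ≤ 4 * |(ρ : ℂ).im - u| ^ 2 := by nlinarith
        have h11 := mul_le_mul_of_nonneg_left h10 (sq_nonneg (L ^ (1 / 3 : ℝ) * sp T))
        linarith
      calc mx (ρ : ℂ) * phi L (((ρ : ℂ).im - u) / sp T) ≤ mx (ρ : ℂ) * (C0 * (4 * (L ^ (1 / 3 : ℝ) * sp T / ((ρ : ℂ).im - t)) ^ 2)) :=
            mul_le_mul_of_nonneg_left (h2.trans (mul_le_mul_of_nonneg_left h9 (by linarith))) hm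
        _ = _ := by ring
  unfold Out OutM
  rw [← tsum_mul_left]
  have hS4 := hS.mul_left (4 * C0)
  exact Summable.tsum_le_tsum (fun ρ => (hterm ρ).2) (Summable.of_nonneg_of_le (fun ρ => (hterm ρ).1) (fun ρ => (hterm ρ).2) hS4) hS4

end Pool.Agent.Helper60.NR
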