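import Pool.Agent.Helper24.NR.Defs

/-!
# NR: the linear statistic, from the pieces
-/

set_option autoImplicit false
open MeasureTheory Set Filter Topology
open Pool.Agent.Helper57.Zeta Pool.Agent.Helper57.LH Pool.Agent.Helper57.ED
open Pool.Agent.Helper54.LG (za zb qk SS MM)
open Pool.Agent.Helper93.UG (zc sp)
open Pool.Agent.Helper69.UG (XX NX)
open Pool.Agent.Helper57.TX (QX DP rs)
open Pool.Agent.Helper24.NR

namespace Pool.Agent.Helper60.NR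

/-! ### asymptotics -/

/-- `(log L)^k L^(-a)` is bounded for `a > 0`. -/
theorem log_bd {a : ℝ} (ha : 0 < a) : ∃ K : ℝ, 1 ≤ K ∧ ∀ L : ℝ, 1 ≤ L → Real.log L ≤ K * L ^ a := by
  refine ⟨max 1 (1 / a), le_max_left _ _, fun L hL => ?_⟩
  have h1 := Real.log_le_rpow_div (by linarith : 0 ≤ L) ha
  calc Real.log L ≤ L ^ a / a := h1
    _ = 1 / a * L ^ a := by ring
    _ ≤ _ := mul_le_mul_of_nonneg_right (le_max_right _ _) (Real.rpow_nonneg (by linarith) _)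

/-- If `e ≤ D L^(-a)` then the bound is trivial. -/
theorem triv_bd {a D : ℝ} (ha : 0 < a) (_hD : 0 ≤ D) : ∃ K : ℝ, 1 ≤ K ∧ ∀ L e c : ℝ, 1 ≤ L → 0 < e → 0 ≤ c → c ≤ 1 → e ≤ D * L ^ (-a) →
    1 ≤ K * L ^ (-(c * e ^ 2)) := by
  obtain ⟨K0, hK0, h0⟩ := log_bd (a := 2 * a) (by linarith)
  refine ⟨Real.exp (D ^ 2 * K0), Real.one_le_exp (by positivity), fun L e c hL he hc hc1 heD => ?_⟩
  have hL0 : 0 < L := by linarith
  have h1 : L ^ (-(c * e ^ 2)) = Real.exp (-(c * e ^ 2 * Real.log L)) := by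
    rw [Real.rpow_def_of_pos hL0]
    congr 1
    ring
  rw [h1, ← Real.exp_add]
  apply Real.one_le_exp
  have h2 : e ^ 2 ≤ D ^ 2 * L ^ (-(2 * a)) := by
    have h3 : L ^ (-(2 * a)) = (L ^ (-a)) ^ 2 := by
      rw [← Real.rpow_natCast (L ^ (-a)) 2, ← Real.rpow_mul hL0.le]
      congr 1
      push_cast
      ring
    rw [h3, ← mul_pow]
    exact pow_le_pow_left₀ he.le heD 2
  have h4 := h0 L hL
  have h5 : 0 ≤ Real.log L := Real.log_nonneg hL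
  have h6 : L ^ (-(2 * a)) * L ^ (2 * a) = 1 := by
    rw [← Real.rpow_add hL0]
    simp
  have h7 : e ^ 2 * Real.log L ≤ D ^ 2 * K0 := by
    calc e ^ 2 * Real.log L ≤ (D ^ 2 * L ^ (-(2 * a))) * (K0 * L ^ (2 * a)) :=
          mul_le_mul h2 h4 h5 (by positivity)
      _ = D ^ 2 * K0 * (L ^ (-(2 * a)) * L ^ (2 * a)) := by ring
      _ = _ := by rw [h6, mul_one]
  have h8 : c * e ^ 2 * Real.log L ≤ e ^ 2 * Real.log L := by
    have : 0 ≤ e ^ 2 * Real.log L := by positivity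
    nlinarith
  linarith

theorem tot_thick_of
    (card_bd : ∃ C : ℝ, 1 ≤ C ∧ ∀ L : ℝ, C ≤ L → Real.log L / 6 ≤ ((Js L).card : ℝ) ∧ ((Js L).card : ℝ) ≤ Real.log L)
    (mem_Js : ∀ {L : ℝ}, 1 ≤ L → ∀ {j : ℕ}, j ∈ Js L → L ^ (1 / 6 : ℝ) ≤ 2 ^ j ∧ (2:ℝ) ^ j ≤ L ^ (1 / 3 : ℝ))
    (mm_main : ∃ C T₀ : ℝ, 0 < C ∧ ∀ T M t : ℝ, T₀ ≤ T → 1 ≤ M → M ≤ Real.log T → t ∈ Pool.Agent.Helper57.TX.JJ T →
      |MM (XX T M) t - M| ≤ C * (M / Real.log T))
    (tot_eq : ∀ {T L t : ℝ}, 1 < T → Tot T L t = wJ L * ∑ j ∈ Js L, NX (XX T (2 ^ j)) t)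
    (loss_thick : ∃ C M₀ T₀ : ℝ, 0 < C ∧ 1 ≤ M₀ ∧ ∀ T M : ℝ, T₀ ≤ T → M₀ ≤ M → M ≤ Real.log T → ∃ E : Set ℝ,
      volume E ≤ ENNReal.ofReal (C / M ^ (1 / 4 : ℝ) * T) ∧ ∀ t, t ∈ Icc (T / 2) (3 * T) → ∀ u, |u - t| ≤ sp T →
        C / M ^ (1 / 4 : ℝ) < |NX (XX T M) u - (MM (XX T M) u - SS (XX T M) u)| → t ∈ E)
    (ss_js : ∃ c C T₀ : ℝ, 0 < c ∧ 1 ≤ C ∧ ∀ T L e : ℝ, T₀ ≤ T → C ≤ L → L ≤ Real.log T → 0 < e → e ≤ 1 → ∃ E : Set ℝ,
      volume E ≤ ENNReal.ofReal (C * L ^ (-(c * e ^ 2)) * T) ∧ ∀ t, t ∈ Icc (T / 2) (3 * T) → ∀ u, |u - t| ≤ sp T →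
        e < |SL T L u| → t ∈ E) :
    ∃ c C T₀ : ℝ, 0 < c ∧ c ≤ 1 / 100 ∧ 1 ≤ C ∧ ∀ T L e : ℝ, T₀ ≤ T → C ≤ L → L ≤ Real.log T → 0 < e → e ≤ 1 →
      ∃ E : Set ℝ, volume E ≤ ENNReal.ofReal (C * L ^ (-(c * e ^ 2)) * T) ∧
      ∀ t ∈ Icc (T / 2) (3 * T), ∀ u : ℝ, |u - t| ≤ sp T → e < |Tot T L u - AL L| → t ∈ E := by
  classical
  obtain ⟨Cc, hCc, hcard⟩ := card_bd
  obtain ⟨Cm, Tm, hCm, hmm⟩ := mm_main
  obtain ⟨Cl, M₀, Tl, hCl, hM₀, hloss⟩ := loss_thick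
  obtain ⟨cs, Cs, Ts, hcs, hCs, hss⟩ := ss_js
  obtain ⟨K1, hK1, hlog⟩ := log_bd (a := 1 / 48) (by norm_num)
  obtain ⟨K2, hK2, htriv⟩ := triv_bd (a := 1 / 24) (D := 3 * Cl + 3 * Cm) (by norm_num) (by positivity)
  obtain ⟨c, hc⟩ : ∃ c : ℝ, c = min (cs / 4) (1 / 100) := ⟨_, rfl⟩
  have hc0 : 0 < c := by rw [hc]; exact lt_min (by linarith) (by norm_num)
  have hcs' : c ≤ cs / 4 := by rw [hc]; exact min_le_left _ _
  have hc100 : c ≤ 1 / 100 := by rw [hc]; exact min_le_right _ _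
  refine ⟨c, max (max (Cs + Cl * K1 + 7) (3 * K2)) (max (max Cc (max 64 (M₀ ^ 6))) 3), max (max Tm Tl) (max Ts 100), hc0,
    hc100, ?_, ?_⟩
  · exact le_trans (by norm_num : (1 : ℝ) ≤ 3) ((le_max_right _ _).trans (le_max_right _ _))
  intro T L e hT hL hLT he he1
  have hTm : Tm ≤ T := ((le_max_left _ _).trans (le_max_left _ _)).trans hT
  have hTl : Tl ≤ T := ((le_max_right _ _).trans (le_max_left _ _)).trans hT
  have hTs : Ts ≤ T := ((le_max_left _ _).trans (le_max_right _ _)).trans hT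
  have hT100 : 100 ≤ T := ((le_max_right _ _).trans (le_max_right _ _)).trans hT
  have hT0 : 0 < T := by linarith
  set CC : ℝ := max (max (Cs + Cl * K1 + 7) (3 * K2)) (max (max Cc (max 64 (M₀ ^ 6))) 3) with hCC
  have hC1 : Cs + Cl * K1 + 7 ≤ CC := (le_max_left _ _).trans (le_max_left _ _)
  have hC2 : 3 * K2 ≤ CC := (le_max_right _ _).trans (le_max_left _ _)
  have hLc : Cc ≤ L := ((le_max_left _ _).trans ((le_max_left _ _).trans (le_max_right _ _))).trans hL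
  have hL64 : 64 ≤ L := ((le_max_left _ _).trans ((le_max_right _ _).trans ((le_max_left _ _).trans (le_max_right _ _)))).trans hL
  have hLM : M₀ ^ 6 ≤ L := ((le_max_right _ _).trans ((le_max_right _ _).trans ((le_max_left _ _).trans (le_max_right _ _)))).trans hL
  have hLs : Cs ≤ L := by
    have h1 : Cs ≤ Cs + Cl * K1 := by nlinarith [mul_nonneg hCl.le (by linarith : 0 ≤ K1)]
    linarith
  have hL1 : 1 ≤ L := by linarith
  have hL0 : 0 < L := by linarith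
  have hlT : 0 < Real.log T := by linarith
  have hpow : 0 < L ^ (-(c * e ^ 2)) := Real.rpow_pos_of_pos hL0 _
  by_cases hsmall : e ≤ (3 * Cl + 3 * Cm) * L ^ (-(1 / 24) : ℝ)
  · -- trivial bound
    refine ⟨Icc (T / 2) (3 * T), ?_, fun t ht _ _ _ => ht⟩
    rw [Real.volume_Icc]
    apply ENNReal.ofReal_le_ofReal
    have h1 := htriv L e c hL1 he hc0.le (by linarith) hsmall
    have h2 : 3 * (K2 * L ^ (-(c * e ^ 2))) ≤ CC * L ^ (-(c * e ^ 2)) := by nlinarith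
    have h3 : 3 ≤ CC * L ^ (-(c * e ^ 2)) := by linarith
    nlinarith
  rw [not_le] at hsmall
  -- the pieces
  obtain ⟨hJ6, hJl⟩ := hcard L hLc
  have hJ0 : 0 < ((Js L).card : ℝ) := by
    have : 0 < Real.log L := Real.log_pos (by linarith)
    linarith
  have hwJ : wJ L * (Js L).card = 3 / 2 := by
    unfold wJ
    field_simp
  have hwJ0 : 0 < wJ L := by unfold wJ; positivity
  have hM : ∀ j ∈ Js L, M₀ ≤ (2 : ℝ) ^ j ∧ (2 : ℝ) ^ j ≤ Real.log T ∧ 1 ≤ (2 : ℝ) ^ j := by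
    intro j hj
    obtain ⟨h1, h2⟩ := mem_Js hL1 hj
    refine ⟨?_, ?_, one_le_pow₀ (by norm_num)⟩
    · refine le_trans ?_ h1
      have h3 : M₀ = (M₀ ^ 6) ^ (1 / 6 : ℝ) := by
        rw [← Real.rpow_natCast M₀ 6, ← Real.rpow_mul (by linarith)]
        norm_num
      rw [h3]
      exact Real.rpow_le_rpow (by positivity) hLM (by norm_num)
    · refine h2.trans ?_
      calc L ^ (1 / 3 : ℝ) ≤ L ^ (1 : ℝ) := Real.rpow_le_rpow_of_exponent_le hL1 (by norm_num)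
        _ = L := Real.rpow_one L
        _ ≤ _ := hLT
  have hex : ∀ j : ℕ, ∃ E : Set ℝ, j ∈ Js L → volume E ≤ ENNReal.ofReal (Cl / ((2 : ℝ) ^ j) ^ (1 / 4 : ℝ) * T) ∧
      ∀ t, t ∈ Icc (T / 2) (3 * T) → ∀ u, |u - t| ≤ sp T →
        Cl / ((2 : ℝ) ^ j) ^ (1 / 4 : ℝ) < |NX (XX T (2 ^ j)) u - (MM (XX T (2 ^ j)) u - SS (XX T (2 ^ j)) u)| → t ∈ E := by
    intro j
    by_cases hj : j ∈ Js L
    · obtain ⟨E, h1, h2⟩ := hloss T (2 ^ j) hTl (hM j hj).1 (hM j hj).2.1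
      exact ⟨E, fun _ => ⟨h1, h2⟩⟩
    · exact ⟨∅, fun h => absurd h hj⟩
  choose E hE using hex
  obtain ⟨B, hB1, hB2⟩ := hss T L (e / 2) hTs hLs hLT (by positivity) (by linarith)
  have hE1 : ∀ j ∈ Js L, Cl / ((2 : ℝ) ^ j) ^ (1 / 4 : ℝ) ≤ Cl * L ^ (-(1 / 24) : ℝ) := by
    intro j hj
    have h1 := (mem_Js hL1 hj).1
    rw [div_eq_mul_inv]
    refine mul_le_mul_of_nonneg_left ?_ hCl.le
    rw [← Real.rpow_neg (by positivity)]
    calc ((2 : ℝ) ^ j) ^ (-(1 / 4) : ℝ) ≤ (L ^ (1 / 6 : ℝ)) ^ (-(1 / 4) : ℝ) :=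
          Real.rpow_le_rpow_of_nonpos (Real.rpow_pos_of_pos hL0 _) h1 (by norm_num)
      _ = L ^ (-(1 / 24) : ℝ) := by
          rw [← Real.rpow_mul hL0.le]
          norm_num
  have hspL : sp T ≤ 7 / L := by
    unfold sp
    have h1 : 2 * Real.pi ≤ 7 := by linarith [Real.pi_lt_d2]
    calc 2 * Real.pi / Real.log T ≤ 7 / Real.log T := div_le_div_of_nonneg_right h1 hlT.le
      _ ≤ _ := div_le_div_of_nonneg_left (by norm_num) hL0 hLT
  have hsp1 : sp T ≤ 1 := hspL.trans (by rw [div_le_one hL0]; linarith)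
  have hsp0 : 0 < sp T := by
    unfold sp
    have := Real.pi_pos
    positivity
  refine ⟨(⋃ j ∈ Js L, E j) ∪ B ∪ Icc (T / 2) (T / 2 + sp T), ?_, ?_⟩
  · -- the measure
    have h1 : volume (⋃ j ∈ Js L, E j) ≤ ENNReal.ofReal (Cl * K1 * L ^ (-(1 / 48) : ℝ) * T) := by
      refine (measure_biUnion_finset_le _ _).trans ?_
      calc ∑ j ∈ Js L, volume (E j) ≤ ∑ _j ∈ Js L, ENNReal.ofReal (Cl * L ^ (-(1 / 24) : ℝ) * T) := by
            refine Finset.sum_le_sum fun j hj => ((hE j hj).1).trans (ENNReal.ofReal_le_ofReal ?_)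
            exact mul_le_mul_of_nonneg_right (hE1 j hj) hT0.le
        _ = ENNReal.ofReal ((Js L).card * (Cl * L ^ (-(1 / 24) : ℝ) * T)) := by
            rw [Finset.sum_const, nsmul_eq_mul, ENNReal.ofReal_mul (Nat.cast_nonneg (Js L).card), ENNReal.ofReal_natCast]
        _ ≤ _ := by
            apply ENNReal.ofReal_le_ofReal
            have h2 := hlog L hL1
            have h3 : L ^ (1 / 48 : ℝ) * L ^ (-(1 / 24) : ℝ) = L ^ (-(1 / 48) : ℝ) := by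
              rw [← Real.rpow_add hL0]
              norm_num
            calc ((Js L).card : ℝ) * (Cl * L ^ (-(1 / 24) : ℝ) * T) ≤ (K1 * L ^ (1 / 48 : ℝ)) * (Cl * L ^ (-(1 / 24) : ℝ) * T) :=
                  mul_le_mul_of_nonneg_right (hJl.trans h2) (by positivity)
              _ = Cl * K1 * (L ^ (1 / 48 : ℝ) * L ^ (-(1 / 24) : ℝ)) * T := by ring
              _ = _ := by rw [h3]
    have h0 : volume (Icc (T / 2) (T / 2 + sp T)) ≤ ENNReal.ofReal (7 * L ^ (-(c * e ^ 2)) * T) := by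
      rw [Real.volume_Icc]
      apply ENNReal.ofReal_le_ofReal
      have g1 : L ^ (-(1:ℝ)) ≤ L ^ (-(c * e ^ 2)) := by
        apply Real.rpow_le_rpow_of_exponent_le hL1
        have : c * e ^ 2 ≤ 1 / 100 * 1 := mul_le_mul hc100 (by nlinarith) (by positivity) (by norm_num)
        linarith
      have g2 : L ^ (-(1:ℝ)) = 1 / L := by
        rw [Real.rpow_neg hL0.le, Real.rpow_one, one_div]
      calc T / 2 + sp T - T / 2 = sp T := by ring
        _ ≤ 7 / L := hspL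
        _ = 7 * L ^ (-(1:ℝ)) := by rw [g2]; ring
        _ ≤ 7 * L ^ (-(c * e ^ 2)) := by linarith
        _ = 7 * L ^ (-(c * e ^ 2)) * 1 := by ring
        _ ≤ _ := mul_le_mul_of_nonneg_left (by linarith) (by positivity)
    refine (measure_union_le _ _).trans ((add_le_add ((measure_union_le _ _).trans (add_le_add h1 hB1)) h0).trans ?_)
    rw [← ENNReal.ofReal_add (by positivity) (by positivity), ← ENNReal.ofReal_add (by positivity) (by positivity)]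
    apply ENNReal.ofReal_le_ofReal
    have h4 : L ^ (-(1 / 48) : ℝ) ≤ L ^ (-(c * e ^ 2)) := by
      apply Real.rpow_le_rpow_of_exponent_le hL1
      have : c * e ^ 2 ≤ 1 / 100 * 1 := mul_le_mul hc100 (by nlinarith) (by positivity) (by norm_num)
      linarith
    have h5 : L ^ (-(cs * (e / 2) ^ 2)) ≤ L ^ (-(c * e ^ 2)) := by
      apply Real.rpow_le_rpow_of_exponent_le hL1
      have : c * e ^ 2 ≤ cs / 4 * e ^ 2 := mul_le_mul_of_nonneg_right hcs' (by positivity)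
      nlinarith
    calc Cl * K1 * L ^ (-(1 / 48) : ℝ) * T + Cs * L ^ (-(cs * (e / 2) ^ 2)) * T + 7 * L ^ (-(c * e ^ 2)) * T
        ≤ Cl * K1 * L ^ (-(c * e ^ 2)) * T + Cs * L ^ (-(c * e ^ 2)) * T + 7 * L ^ (-(c * e ^ 2)) * T := by gcongr
      _ = (Cs + Cl * K1 + 7) * L ^ (-(c * e ^ 2)) * T := by ring
      _ ≤ CC * L ^ (-(c * e ^ 2)) * T := by gcongr
  · -- the inequality
    intro t ht u hu hbad
    by_contra hnot
    have hnB : t ∉ B := fun h => hnot (Or.inl (Or.inr h))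
    have hnS : t ∉ Icc (T / 2) (T / 2 + sp T) := fun h => hnot (Or.inr h)
    have hnE : ∀ j ∈ Js L, t ∉ E j := by
      intro j hj h
      exact hnot (Or.inl (Or.inl (mem_iUnion₂.2 ⟨j, hj, h⟩)))
    have hSL : |SL T L u| ≤ e / 2 := by
      by_contra h
      exact hnB (hB2 t ht u hu (not_le.1 h))
    have hu' := abs_le.1 hu
    have huJ : u ∈ Pool.Agent.Helper57.TX.JJ T := by
      have h1 : T / 2 + sp T < t := by
        by_contra h
        exact hnS ⟨ht.1, not_lt.1 h⟩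
      exact ⟨by linarith [hu'.1], by linarith [hu'.2, ht.2]⟩
    have hj1 : ∀ j ∈ Js L, |NX (XX T (2 ^ j)) u - ((2 : ℝ) ^ j - SS (XX T (2 ^ j)) u)| ≤ (Cl + Cm) * L ^ (-(1 / 24) : ℝ) := by
      intro j hj
      have h1 : |NX (XX T (2 ^ j)) u - (MM (XX T (2 ^ j)) u - SS (XX T (2 ^ j)) u)| ≤ Cl * L ^ (-(1 / 24) : ℝ) := by
        refine le_trans ?_ (hE1 j hj)
        by_contra h
        exact hnE j hj ((hE j hj).2 t ht u hu (not_le.1 h))
      have h2 : |MM (XX T (2 ^ j)) u - 2 ^ j| ≤ Cm * L ^ (-(1 / 24) : ℝ) := by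
        refine (hmm T (2 ^ j) u hTm (hM j hj).2.2 (hM j hj).2.1 huJ).trans (mul_le_mul_of_nonneg_left ?_ hCm.le)
        calc (2 : ℝ) ^ j / Real.log T ≤ L ^ (1 / 3 : ℝ) / Real.log T := div_le_div_of_nonneg_right (mem_Js hL1 hj).2 hlT.le
          _ ≤ L ^ (1 / 3 : ℝ) / L := div_le_div_of_nonneg_left (by positivity) hL0 hLT
          _ = L ^ (-(2 / 3) : ℝ) := by
              rw [div_eq_mul_inv, ← Real.rpow_neg_one L, ← Real.rpow_add hL0]
              norm_num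
          _ ≤ _ := Real.rpow_le_rpow_of_exponent_le hL1 (by norm_num)
      have h3 : NX (XX T (2 ^ j)) u - ((2 : ℝ) ^ j - SS (XX T (2 ^ j)) u) =
          (NX (XX T (2 ^ j)) u - (MM (XX T (2 ^ j)) u - SS (XX T (2 ^ j)) u)) + (MM (XX T (2 ^ j)) u - 2 ^ j) := by ring
      rw [h3]
      calc _ ≤ |NX (XX T (2 ^ j)) u - (MM (XX T (2 ^ j)) u - SS (XX T (2 ^ j)) u)| + |MM (XX T (2 ^ j)) u - 2 ^ j| :=
            abs_add_le _ _
        _ ≤ _ := by linarith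
    have h4 : Tot T L u - AL L =
        wJ L * ∑ j ∈ Js L, (NX (XX T (2 ^ j)) u - ((2 : ℝ) ^ j - SS (XX T (2 ^ j)) u)) - SL T L u := by
      rw [tot_eq (by linarith : 1 < T)]
      unfold AL SL
      rw [← mul_sub, ← mul_sub, ← Finset.sum_sub_distrib, ← Finset.sum_sub_distrib]
      congr 1
      refine Finset.sum_congr rfl fun j _ => by ring
    have h5 : |wJ L * ∑ j ∈ Js L, (NX (XX T (2 ^ j)) u - ((2 : ℝ) ^ j - SS (XX T (2 ^ j)) u))| ≤
        3 / 2 * ((Cl + Cm) * L ^ (-(1 / 24) : ℝ)) := by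
      rw [abs_mul, abs_of_pos hwJ0]
      calc wJ L * |∑ j ∈ Js L, (NX (XX T (2 ^ j)) u - ((2 : ℝ) ^ j - SS (XX T (2 ^ j)) u))|
          ≤ wJ L * ∑ j ∈ Js L, ((Cl + Cm) * L ^ (-(1 / 24) : ℝ)) := by
            refine mul_le_mul_of_nonneg_left ((Finset.abs_sum_le_sum_abs _ _).trans (Finset.sum_le_sum hj1)) hwJ0.le
        _ = (wJ L * (Js L).card) * ((Cl + Cm) * L ^ (-(1 / 24) : ℝ)) := by
            rw [Finset.sum_const, nsmul_eq_mul]
            ring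
        _ = _ := by rw [hwJ]
    have h6 : |Tot T L u - AL L| ≤ 3 / 2 * ((Cl + Cm) * L ^ (-(1 / 24) : ℝ)) + e / 2 := by
      rw [h4]
      calc _ ≤ |wJ L * ∑ j ∈ Js L, (NX (XX T (2 ^ j)) u - ((2 : ℝ) ^ j - SS (XX T (2 ^ j)) u))| + |SL T L u| := abs_sub _ _
        _ ≤ _ := add_le_add h5 hSL
    have h7 : 3 / 2 * ((Cl + Cm) * L ^ (-(1 / 24) : ℝ)) = ((3 * Cl + 3 * Cm) * L ^ (-(1 / 24) : ℝ)) / 2 := by ring
    linarith

end Pool.Agent.Helper60.NR
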