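import Pool.Agent.Helper24.NR.Defs
import Pool.Agent.Helper60.NR.KK

/-!
# NR: the number of the zeros in the window
-/

set_option autoImplicit false
open MeasureTheory Set Filter Topology
open Pool.Agent.Helper57.Zeta Pool.Agent.Helper57.LH Pool.Agent.Helper57.ED
open Pool.Agent.Helper54.LG (za zb qk SS MM)
open Pool.Agent.Helper93.UG (zc sp)
open Pool.Agent.Helper69.UG (XX NX)
open Pool.Agent.Helper24.NR

namespace Pool.Agent.Helper60.NR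

/-- Markov for the smooth count. -/
theorem KK_markov : ∃ C T₀ : ℝ, 0 < C ∧ 100 ≤ T₀ ∧ ∀ T M v : ℝ, T₀ ≤ T → 0 < M → M ≤ 100 * Real.log T → 0 < v →
    volume {t : ℝ | t ∈ Icc (T / 2) (3 * T) ∧ v ≤ KK T M t} ≤ ENNReal.ofReal (C * (M / v) * T) := by
  obtain ⟨C, T₀, hC, hT₀, hKK⟩ := KK_mean
  refine ⟨C, T₀, hC, hT₀, fun T M v hT hM hMT hv => ?_⟩
  have hT100 : 100 ≤ T := hT₀.trans hT
  obtain ⟨hint, hmean⟩ := hKK T M hT hM hMT
  have hsub : {t : ℝ | t ∈ Icc (T / 2) (3 * T) ∧ v ≤ KK T M t} ⊆ {t : ℝ | v ≤ KK T M t} ∩ Icc (-(4 * T)) (4 * T) := by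
    intro t ht
    obtain ⟨h1, h2⟩ := ht
    exact ⟨h2, by linarith [h1.1], by linarith [h1.2]⟩
  have hmark := mul_meas_ge_le_integral_of_nonneg (μ := volume.restrict (Icc (-(4 * T)) (4 * T)))
    (f := KK T M) (Eventually.of_forall fun t => KK_nonneg T M t) hint v
  have hfin : volume ({t : ℝ | v ≤ KK T M t} ∩ Icc (-(4 * T)) (4 * T)) ≠ ⊤ := by
    refine ne_top_of_le_ne_top ?_ (measure_mono inter_subset_right)
    rw [Real.volume_Icc]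
    exact ENNReal.ofReal_ne_top
  have h9 : (volume.restrict (Icc (-(4 * T)) (4 * T))).real {t : ℝ | v ≤ KK T M t} =
      (volume ({t : ℝ | v ≤ KK T M t} ∩ Icc (-(4 * T)) (4 * T))).toReal := by
    rw [measureReal_def, Measure.restrict_apply' measurableSet_Icc]
  rw [h9] at hmark
  refine (measure_mono hsub).trans ?_
  rw [← ENNReal.ofReal_toReal hfin]
  apply ENNReal.ofReal_le_ofReal
  have h11 : (volume ({t : ℝ | v ≤ KK T M t} ∩ Icc (-(4 * T)) (4 * T))).toReal ≤ C * M * T / v := by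
    rw [le_div_iff₀ hv]
    linarith
  refine h11.trans (le_of_eq ?_)
  ring

/-- W2 -/
theorem win_count : ∃ C T₀ : ℝ, 1 ≤ C ∧ ∀ T L : ℝ, T₀ ≤ T → C ≤ L → L ≤ Real.log T →
    volume {t : ℝ | t ∈ Icc (T / 2) (3 * T) ∧ L ^ (1 / 8 : ℝ) < (zc (Wn T L 2 t) : ℝ)} ≤
      ENNReal.ofReal (C * L ^ (-(1 / 16) : ℝ) * T) := by
  obtain ⟨C, T₀, hC, hT₀, hM⟩ := KK_markov
  have hpi := Real.pi_pos
  refine ⟨max 1 (C * (8 * Real.pi)), T₀, le_max_left _ _, fun T L hT hL hLT => ?_⟩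
  have hT100 : 100 ≤ T := hT₀.trans hT
  have hL1 : 1 ≤ L := (le_max_left _ _).trans hL
  have hL0 : 0 < L := by linarith
  have hLp : 0 < L ^ (1 / 16 : ℝ) := Real.rpow_pos_of_pos hL0 _
  have hLq : L ^ (1 / 16 : ℝ) ≤ L := by
    calc L ^ (1 / 16 : ℝ) ≤ L ^ (1 : ℝ) := Real.rpow_le_rpow_of_exponent_le hL1 (by norm_num)
      _ = L := Real.rpow_one L
  have h1 := hM T (2 * Real.pi * (2 * L ^ (1 / 16 : ℝ))) (L ^ (1 / 8 : ℝ) / 2) hT (by positivity)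
    (by nlinarith [Real.pi_lt_d2]) (by positivity)
  have hsub : {t : ℝ | t ∈ Icc (T / 2) (3 * T) ∧ L ^ (1 / 8 : ℝ) < (zc (Wn T L 2 t) : ℝ)} ⊆
      {t : ℝ | t ∈ Icc (T / 2) (3 * T) ∧ L ^ (1 / 8 : ℝ) / 2 ≤ KK T (2 * Real.pi * (2 * L ^ (1 / 16 : ℝ))) t} := by
    intro t ht
    refine ⟨ht.1, ?_⟩
    have h2 := zc_le_KK (T := T) (K := 2 * L ^ (1 / 16 : ℝ)) (t := t) (by linarith) (by positivity)
    have h3 := ht.2
    unfold Wn at h3
    linarith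
  refine (measure_mono hsub).trans (h1.trans (ENNReal.ofReal_le_ofReal ?_))
  have h4 : L ^ (1 / 16 : ℝ) / L ^ (1 / 8 : ℝ) = L ^ (-(1 / 16) : ℝ) := by
    rw [div_eq_mul_inv, ← Real.rpow_neg hL0.le, ← Real.rpow_add hL0]
    norm_num
  have h5 : C * (2 * Real.pi * (2 * L ^ (1 / 16 : ℝ)) / (L ^ (1 / 8 : ℝ) / 2)) * T =
      (C * (8 * Real.pi)) * (L ^ (1 / 16 : ℝ) / L ^ (1 / 8 : ℝ)) * T := by
    field_simp
    ring
  rw [h5, h4]
  have h6 : 0 < L ^ (-(1 / 16) : ℝ) := Real.rpow_pos_of_pos hL0 _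
  have h7 : C * (8 * Real.pi) ≤ max 1 (C * (8 * Real.pi)) := le_max_right _ _
  gcongr

end Pool.Agent.Helper60.NR
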